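import Pool.Agent.Helper75.CR.St2

/-!
# Project CR (MP_265e56_al), module N6: powers of words
-/

set_option autoImplicit false

namespace Pool.Agent.Helper37.CR

open Pool.Agent.Helper75.CR Helper1.IM

/-- Power of a word. -/
def pw {B : Type} (n : ℕ) (y : Wo B) : Wo B := (List.replicate n y).flatten

theorem pw_zero {B : Type} (y : Wo B) : pw 0 y = [] := rfl

theorem pw_succ {B : Type} (n : ℕ) (y : Wo B) : pw (n + 1) y = y ++ pw n y := by
  simp [pw, List.replicate_succ]

theorem pw_succ' {B : Type} (n : ℕ) (y : Wo B) : pw (n + 1) y = pw n y ++ y := by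
  simp [pw, List.replicate_succ']

theorem pw_add {B : Type} (m n : ℕ) (y : Wo B) : pw (m + n) y = pw m y ++ pw n y := by
  induction m with
  | zero => simp [pw_zero]
  | succ m ih => rw [Nat.succ_add, pw_succ, ih, pw_succ, List.append_assoc]

theorem cn_pw {B : Type} (n : ℕ) (y : Wo B) : cn (pw n y) ⊆ cn y := by
  induction n with
  | zero => simp [pw_zero]
  | succ n ih =>
    rw [pw_succ, cn_append]
    exact Finset.union_subset subset_rfl ih

theorem em_pw (n : ℕ) (y : Wo Unit) : em (pw n y) = pw n (em y) := by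
  induction n with
  | zero => rfl
  | succ n ih => rw [pw_succ, pw_succ, em_append, ih]

theorem sb_rep (z : Wd) (n : ℕ) : sb (fun _ => z) (List.replicate n (X 0)) = pw n z := by
  induction n with
  | zero => rfl
  | succ n ih => rw [List.replicate_succ, sb_X, ih, pw_succ]

theorem hN6 : StN6 := by
  intro θ hCR hSL
  obtain ⟨⟨b, hb⟩, -⟩ := hCR
  -- the identity x = x^(k+2)
  have h1 : b = List.replicate b.length (X 0) := by
    rcases hSL _ _ hb with ⟨⟨i, hi1, hi2⟩, -⟩ | ⟨-, -, hsc⟩
    · simp [X] at hi1 hi2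
    · rw [List.eq_replicate_iff]
      refine ⟨rfl, fun a ha => ?_⟩
      have := (hsc a).2 (by simp [ha])
      simpa using this
  obtain ⟨k, hk⟩ : ∃ k, b = List.replicate k (X 0) := ⟨_, h1⟩
  have h2 : θ.r [X 0] (List.replicate (k + 2) (X 0)) := by
    rw [hk] at hb
    have e : ([X 0, X 0] ++ List.replicate k (X 0) : Wd) = List.replicate (k + 2) (X 0) := by
      rw [List.replicate_succ, List.replicate_succ]
      rfl
    rw [← e]
    exact hb
  have h3 : ∀ y : Wo Unit, y ≠ [] → (plP θ).r y (pw (k + 2) y) := by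
    intro y hy
    have h := θ.sub' (fun _ => em y) (fun _ hc => hy (by simpa [Helper75.CR.em] using hc)) h2
    rw [sb_rep, sb_X, sb_nil, List.append_nil, ← em_pw] at h
    exact h
  have h4 : ∀ y : Wo Unit, y ≠ [] → (plP θ).r (pw (k + 1) y ++ pw (k + 1) y) (pw (k + 1) y) := by
    intro y hy
    have e : pw (k + 1) y ++ pw (k + 1) y = pw k y ++ pw (k + 2) y := by
      rw [← pw_add, ← pw_add]
      congr 1
      omega
    rw [e, pw_succ' k]
    exact (plP θ).symm' ((plP θ).mulL _ (h3 y hy))
  refine ⟨fun y hy => ⟨⟨pw k y, ?_⟩, pw k y, ?_⟩, fun i b b' => ⟨[], [], ?_⟩, fun w hw => ⟨⟨pw k w, ?_, ?_, ?_⟩,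
    pw k w, ?_, ?_, ?_⟩, k + 1, by omega, h2⟩
  · have h := h3 y hy
    rw [pw_succ, pw_succ] at h
    rw [List.append_assoc]
    exact h
  · have h := h3 y hy
    rw [pw_succ', pw_succ'] at h
    exact h
  · exact (plP θ).of_eq (by simp)
  · rw [← pw_succ]
    exact h4 w hw
  · intro b
    exact (plP θ).refl' _
  · rw [cn_append, Finset.union_eq_left.2 (cn_pw k w)]
  · rw [← pw_succ']
    exact h4 w hw
  · intro b
    exact (plP θ).refl' _
  · rw [cn_append, Finset.union_eq_right.2 (cn_pw k w)]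

end Pool.Agent.Helper37.CR
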