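import Pool.Agent.Helper75.CR.St2

/-!
# Project CR (MP_265e56_al), module O3: necessity of the identities `x x* = x* x = x x* x`
-/

set_option autoImplicit false

namespace Pool.Agent.Helper37.CR

open Pool.Agent.Helper75.CR Helper1.IM

theorem Dw_ne {s : Wd} (h : Dw s) : s ≠ [] := fun hs => by
  have := h.2.1
  rw [hs] at this
  simp at this

theorem Dw_mem {s t : Wd} (hs : Dw s) (ht : Dw t) {a : Lt} (ha : a ∈ t) : a ∈ s := by
  have h1 : a.1 ∈ ct t := mem_ct.2 ⟨a.2, ha⟩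
  rw [ht.1, Finset.mem_singleton] at h1
  rcases a with ⟨i, b⟩
  simp only at h1
  subst h1
  cases b
  · exact hs.2.1
  · exact hs.2.2

theorem hO3 (hL2 : Helper75.CR.StL2) (hM1 : Helper75.CR.StM1) (hO1 : Helper75.CR.StO1) (hO2 : Helper75.CR.StO2) :
    Helper75.CR.StO3 := by
  intro θ hCR hSL hMod
  obtain ⟨β, hθβ, hβ, hq⟩ := hO1 θ hCR hSL
  obtain ⟨hi, hc⟩ := hO2 θ β hSL hMod hθβ hq
  have hW := (hM1 θ hCR).1
  -- idempotent
  have h1 : ∀ s : Wd, Dw s → θ.r s (s ++ s) := by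
    intro s hs
    have h := hβ _ _ hi (fun _ => s) (fun _ => hs)
    simpa using h
  -- commutative
  have h2 : ∀ s t : Wd, Dw s → Dw t → θ.r (s ++ t) (t ++ s) := by
    intro s t hs ht
    have h := hβ _ _ hc (fun i => if i = 1 then t else s) (fun i => by
      by_cases hi : i = 1
      · simpa [hi] using ht
      · simpa [hi] using hs)
    simpa using h
  -- the main claim
  have h3 : ∀ s t : Wd, Dw s → Dw t → θ.r (s ++ t) s := by
    intro s t hs ht
    obtain ⟨⟨r, hr⟩, -, -⟩ := hL2 Bool SB (toP θ) hW s t (Dw_ne hs) (fun a ha => by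
      obtain ⟨x, y, hxy⟩ := List.append_of_mem (Dw_mem hs ht ha)
      refine ⟨x, y, (toP θ).of_eq ?_⟩
      rw [hxy]
      simp)
    have hr' : θ.r s (s ++ t ++ r) := hr
    have hsub := θ.sub' (fun _ => [(0, false)]) (fun _ => by simp) hr'
    have hfix : ∀ w : Wd, Dw w → sb (fun _ => [(0, false)]) w = w := by
      intro w hw
      rw [sb_congr _ (fun i => [(i, false)]) w (fun i hi => ?_), sb_id]
      rw [hw.1, Finset.mem_singleton] at hi
      rw [hi]
    rw [sb_append, sb_append, hfix s hs, hfix t ht] at hsub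
    set r1 : Wd := sb (fun _ => [(0, false)]) r with hr1
    have hr1c : ct r1 ⊆ {0} := by
      rw [hr1, ct_sb]
      intro i hi
      simp only [Finset.mem_biUnion] at hi
      obtain ⟨j, -, hj⟩ := hi
      simpa using hj
    set r2 : Wd := r1 ++ s with hr2
    have hD : Dw r2 := by
      refine ⟨?_, ?_, ?_⟩
      · rw [hr2, ct_append, hs.1, Finset.union_eq_right.2 hr1c]
      · rw [hr2]; simp [hs.2.1]
      · rw [hr2]; simp [hs.2.2]
    have h4 : θ.r s (s ++ t ++ r2) := by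
      refine θ.trans' (h1 s hs) ?_
      have := (toP θ).mulR s hsub
      rw [hr2]
      simpa [toP, List.append_assoc] using this
    -- s t = s t r2 t
    have h5 : θ.r (s ++ t) (s ++ t ++ r2 ++ t) := (toP θ).mulR t h4
    have h6 : θ.r (s ++ t ++ r2 ++ t) (s ++ (r2 ++ t ++ t)) := by
      have := θ.mul' s t (h2 t r2 ht hD)
      simpa [List.append_assoc] using this
    have h7 : θ.r (s ++ (r2 ++ t ++ t)) (s ++ (r2 ++ t)) := by
      have := (toP θ).mulL (s ++ r2) (θ.symm' (h1 t ht))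
      simpa [toP, List.append_assoc] using this
    have h8 : θ.r (s ++ (r2 ++ t)) (s ++ t ++ r2) := by
      have := (toP θ).mulL s (h2 r2 t hD ht)
      simpa [toP, List.append_assoc] using this
    exact θ.trans' h5 (θ.trans' h6 (θ.trans' h7 (θ.trans' h8 (θ.symm' h4))))
  have h9 : ∀ s t : Wd, Dw s → Dw t → θ.r s t := fun s t hs ht =>
    θ.trans' (θ.symm' (h3 s t hs ht)) (θ.trans' (h2 s t hs ht) (h3 t s ht hs))
  refine ⟨h9 _ _ ⟨?_, ?_, ?_⟩ ⟨?_, ?_, ?_⟩, h9 _ _ ⟨?_, ?_, ?_⟩ ⟨?_, ?_, ?_⟩⟩ <;> simp [ct, X, Y]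

end Pool.Agent.Helper37.CR
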